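import Mathlib
import Pool.Agent.W811.LW.Stm

set_option autoImplicit false
open Finset

namespace Pool.Agent.W720.LW.Wgt

open Pool.Agent.W811.LW

theorem sumF (a N : ℕ) :
    ∑ l ∈ range N, (if l ≤ a then ((1 : ℝ) / 2) ^ (a - l) else 0) ≤ 2 * (1 / 2) ^ (a + 1 - N) := by
  induction N with
  | zero => simp only [range_zero, sum_empty]; positivity
  | succ N ih =>
    rw [sum_range_succ]
    by_cases h : N ≤ a
    · rw [if_pos h]
      obtain ⟨d, rfl⟩ := Nat.exists_eq_add_of_le h
      have e1 : N + d + 1 - N = d + 1 := by omega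
      have e2 : N + d - N = d := by omega
      have e3 : N + d + 1 - (N + 1) = d := by omega
      rw [e1] at ih
      rw [e2, e3]
      have : ((1 : ℝ) / 2) ^ (d + 1) = (1 / 2) ^ d * (1 / 2) := pow_succ _ _
      rw [this] at ih
      linarith
    · rw [if_neg h, add_zero]
      have e1 : a + 1 - N = 0 := by omega
      have e3 : a + 1 - (N + 1) = 0 := by omega
      rw [e1] at ih
      rw [e3]
      exact ih

theorem sumF' (a n m : ℕ) :
    ∑ j ∈ range m, (if n + j ≤ a then ((1 : ℝ) / 2) ^ (a - (n + j)) else 0) ≤ 2 := by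
  have h1 := sumF a (n + m)
  rw [sum_range_add] at h1
  have h2 : 0 ≤ ∑ l ∈ range n, (if l ≤ a then ((1 : ℝ) / 2) ^ (a - l) else 0) := by
    apply sum_nonneg
    intro i _
    split_ifs
    · positivity
    · exact le_rfl
  have h3 : ((1 : ℝ) / 2) ^ (a + 1 - (n + m)) ≤ 1 := pow_le_one₀ (by norm_num) (by norm_num)
  linarith

theorem wgt : WGT := by
  intro L K hL hK
  have hex : ∀ l : ℕ, ∃ k, l ≤ L k := fun l => ⟨l, hL.id_le l⟩
  classical
  let κ : ℕ → ℕ := fun l => Nat.find (hex l)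
  have hκ : ∀ l, l ≤ L (κ l) := fun l => Nat.find_spec (hex l)
  have hmin : ∀ l k, l ≤ L k → κ l ≤ k := fun l k h => Nat.find_min' (hex l) h
  refine ⟨fun l => (1 / 2) ^ (L (κ l) - l), fun l => by positivity, ?_, ?_, 2 * ((K : ℝ) + 1), ?_⟩
  · intro l
    by_cases h : L (κ l) = l
    · have h1 : ((1 : ℝ) / 2) ^ (L (κ (l + 1)) - (l + 1)) ≤ 1 :=
        pow_le_one₀ (by norm_num) (by norm_num)
      have h2 : ((1 : ℝ) / 2) ^ (L (κ l) - l) = 1 := by rw [h]; simp
      show ((1 : ℝ) / 2) ^ (L (κ (l + 1)) - (l + 1)) ≤ 2 * (1 / 2) ^ (L (κ l) - l)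
      rw [h2]; linarith
    · have h0 : l + 1 ≤ L (κ l) := by
        have := hκ l
        omega
      have h1 : κ (l + 1) = κ l := by
        apply le_antisymm
        · exact hmin _ _ h0
        · apply hmin
          have := hκ (l + 1)
          omega
      show ((1 : ℝ) / 2) ^ (L (κ (l + 1)) - (l + 1)) ≤ 2 * (1 / 2) ^ (L (κ l) - l)
      rw [h1]
      obtain ⟨d, hd⟩ := Nat.exists_eq_add_of_le h0
      have e1 : L (κ l) - (l + 1) = d := by omega
      have e2 : L (κ l) - l = d + 1 := by omega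
      rw [e1, e2, pow_succ]
      linarith
  · intro k
    have h1 : κ (L k) ≤ k := hmin _ _ le_rfl
    have h2 : L (κ (L k)) ≤ L k := hL.monotone h1
    have h3 : L (κ (L k)) = L k := le_antisymm h2 (hκ _)
    show (1 : ℝ) ≤ (1 / 2) ^ (L (κ (L k)) - L k)
    rw [h3]; simp
  · intro n
    have hterm : ∀ j ∈ range (n + 1), ((1 : ℝ) / 2) ^ (L (κ (n + j)) - (n + j)) ≤
        ∑ i ∈ range (K + 1), (if n + j ≤ L (κ n + i) then
          ((1 : ℝ) / 2) ^ (L (κ n + i) - (n + j)) else 0) := by
      intro j hj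
      rw [mem_range] at hj
      have h1 : κ n ≤ κ (n + j) := by
        apply hmin
        have := hκ (n + j)
        omega
      have h2 : κ (n + j) ≤ κ n + K := by
        apply hmin
        have h3 := hK (κ n)
        have h4 := hκ n
        omega
      obtain ⟨i, hi⟩ := Nat.exists_eq_add_of_le h1
      have hiK : i ∈ range (K + 1) := by rw [mem_range]; omega
      have hnn : ∀ i' ∈ range (K + 1), 0 ≤ (if n + j ≤ L (κ n + i') then
          ((1 : ℝ) / 2) ^ (L (κ n + i') - (n + j)) else 0) := by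
        intro i' _
        split_ifs
        · positivity
        · exact le_rfl
      refine le_trans ?_ (single_le_sum hnn hiK)
      have h5 := hκ (n + j)
      rw [hi] at h5
      rw [if_pos h5, hi]
    calc ∑ j ∈ range (n + 1), ((1 : ℝ) / 2) ^ (L (κ (n + j)) - (n + j))
        ≤ ∑ j ∈ range (n + 1), ∑ i ∈ range (K + 1), (if n + j ≤ L (κ n + i) then
          ((1 : ℝ) / 2) ^ (L (κ n + i) - (n + j)) else 0) := sum_le_sum hterm
      _ = ∑ i ∈ range (K + 1), ∑ j ∈ range (n + 1), (if n + j ≤ L (κ n + i) then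
          ((1 : ℝ) / 2) ^ (L (κ n + i) - (n + j)) else 0) := sum_comm
      _ ≤ ∑ _i ∈ range (K + 1), (2 : ℝ) := sum_le_sum fun i _ => sumF' _ _ _
      _ = 2 * ((K : ℝ) + 1) := by
        rw [sum_const, card_range, nsmul_eq_mul]
        push_cast
        ring

end Pool.Agent.W720.LW.Wgt
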